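import Mathlib
import Pool.Agent.Helper255.BN.Planar

/-!
# From the planar inequality to eigenvalues (Bollobás–Nikiforov)
-/
set_option autoImplicit false
open scoped BigOperators
open Finset

namespace Pool.Agent.H502.BNTop

open Pool.Agent.Helper255.BN

section core
variable {V : Type*} [Fintype V] [DecidableEq V]

/-- The reduction: two orthogonal eigenvectors `u ≥ 0` and `w` with `|u|² = a`, `|w|² = b`. -/
theorem core (G : SimpleGraph V) [DecidableRel G.Adj] (r : ℕ) (hr : 1 ≤ r)
    (hG : G.CliqueFree (r+1)) (A : Matrix V V ℝ) (h0 : ∀ i j, 0 ≤ A i j)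
    (hsupp : ∀ i j, ¬ G.Adj i j → A i j = 0) (u w : V → ℝ) (hu : ∀ i, 0 ≤ u i) (a b : ℝ)
    (ha : 0 < a) (huu : ∑ i, u i ^ 2 = a) (hww : ∑ i, w i ^ 2 = b)
    (huw : ∑ i, u i * w i = 0) (hAu : ∀ i, ∑ j, A i j * u j = a * u i)
    (hAw : ∀ i, ∑ j, A i j * w j = b * w i) :
    a ^ 2 + b ^ 2 ≤ (1 - 1 / (r : ℝ)) * ∑ i, ∑ j, A i j ^ 2 := by
  classical
  set P : V → V → ℝ := fun i j => u i * u j + w i * w j with hP
  have hPP : ∑ i, ∑ j, (P i j) ^ 2 = a ^ 2 + b ^ 2 := by
    have h1 : ∀ i, ∑ j, (P i j) ^ 2 = u i ^ 2 * a + w i ^ 2 * b := by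
      intro i
      have : ∀ j, (P i j) ^ 2 = u i ^ 2 * u j ^ 2 + 2 * (u i * w i) * (u j * w j)
          + w i ^ 2 * w j ^ 2 := by intro j; simp only [hP]; ring
      simp_rw [this, Finset.sum_add_distrib, ← Finset.mul_sum, huu, hww, huw]
      ring
    simp_rw [h1, Finset.sum_add_distrib, ← Finset.sum_mul, huu, hww]
    ring
  have hAP : ∑ i, ∑ j, A i j * P i j = a ^ 2 + b ^ 2 := by
    have h1 : ∀ i, ∑ j, A i j * P i j = a * u i ^ 2 + b * w i ^ 2 := by
      intro i
      have : ∀ j, A i j * P i j = u i * (A i j * u j) + w i * (A i j * w j) := by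
        intro j; simp only [hP]; ring
      simp_rw [this, Finset.sum_add_distrib, ← Finset.mul_sum, hAu, hAw]
      ring
    simp_rw [h1, Finset.sum_add_distrib, ← Finset.mul_sum, huu, hww]
    ring
  set M : V → V → ℝ := fun i j => if G.Adj i j then max 0 (P i j) else 0 with hM
  have hAM : ∑ i, ∑ j, A i j * P i j ≤ ∑ i, ∑ j, A i j * M i j := by
    refine Finset.sum_le_sum fun i _ => Finset.sum_le_sum fun j _ => ?_
    by_cases h : G.Adj i j
    · simp only [hM, h, if_true]
      exact mul_le_mul_of_nonneg_left (le_max_right _ _) (h0 i j)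
    · simp [hM, h, hsupp i j h]
  have hMM : ∑ i, ∑ j, (M i j) ^ 2 ≤ (1 - 1 / (r : ℝ)) * (a ^ 2 + b ^ 2) := by
    have := planar_ineq G r hr hG u w hu
    have h2 : ∑ i, ∑ j, (M i j) ^ 2
        = ∑ i, ∑ j, (if G.Adj i j then (max 0 (u i * u j + w i * w j))^2 else 0) := by
      refine Finset.sum_congr rfl fun i _ => Finset.sum_congr rfl fun j _ => ?_
      simp only [hM, hP]
      split_ifs <;> simp
    rw [h2, ← hPP]
    exact this
  have hCS : (∑ i, ∑ j, A i j * M i j) ^ 2 ≤ (∑ i, ∑ j, A i j ^ 2) * ∑ i, ∑ j, (M i j) ^ 2 := by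
    have := Finset.sum_mul_sq_le_sq_mul_sq (Finset.univ : Finset (V × V)) (fun p => A p.1 p.2)
      (fun p => M p.1 p.2)
    simp only [← Finset.univ_product_univ, Finset.sum_product] at this
    exact this
  set T := a ^ 2 + b ^ 2 with hT
  have hTpos : 0 < T := by positivity
  set Q := ∑ i, ∑ j, A i j ^ 2 with hQ
  have hQ0 : 0 ≤ Q := Finset.sum_nonneg fun i _ => Finset.sum_nonneg fun j _ => sq_nonneg _
  have h3 : T ^ 2 ≤ Q * ((1 - 1 / (r : ℝ)) * T) := by
    have h4 : T ≤ ∑ i, ∑ j, A i j * M i j := by rw [← hAP]; exact hAM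
    calc T ^ 2 ≤ (∑ i, ∑ j, A i j * M i j) ^ 2 := by
            exact pow_le_pow_left₀ hTpos.le h4 2
      _ ≤ _ := hCS
      _ ≤ _ := mul_le_mul_of_nonneg_left hMM hQ0
  have h5 : T * T ≤ ((1 - 1 / (r : ℝ)) * Q) * T := by nlinarith [h3]
  exact le_of_mul_le_mul_right h5 hTpos

end core

section spectral
variable {V : Type*} [Fintype V] [DecidableEq V]

/-- coefficient of `f` in the eigenbasis -/
noncomputable def co {A : Matrix V V ℝ} (hA : A.IsHermitian) (i : V) (f : V → ℝ) : ℝ :=
  ∑ v, hA.eigenvectorBasis i v * f v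

theorem co_parseval {A : Matrix V V ℝ} (hA : A.IsHermitian) (f g : V → ℝ) :
    ∑ i, co hA i f * co hA i g = ∑ v, f v * g v := by
  have := hA.eigenvectorBasis.sum_inner_mul_inner (WithLp.toLp 2 f) (WithLp.toLp 2 g)
  simp only [EuclideanSpace.inner_eq_star_dotProduct, dotProduct, star_trivial] at this
  simp only [co]
  rw [show (∑ v, f v * g v) = ∑ v, g v * f v from Finset.sum_congr rfl fun _ _ => mul_comm _ _,
    ← this]
  refine Finset.sum_congr rfl fun i _ => ?_
  congr 1
  refine Finset.sum_congr rfl fun v _ => ?_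
  ring

theorem co_mulVec {A : Matrix V V ℝ} (hA : A.IsHermitian) (i : V) (f : V → ℝ) :
    co hA i (fun v => ∑ j, A v j * f j) = hA.eigenvalues i * co hA i f := by
  have h1 := hA.mulVec_eigenvectorBasis i
  have h2 : ∀ j, ∑ v, A j v * hA.eigenvectorBasis i v
      = hA.eigenvalues i * hA.eigenvectorBasis i j := by
    intro j
    have := congrFun h1 j
    simpa [Matrix.mulVec, dotProduct] using this
  have hs : ∀ v j, A v j = A j v := by
    intro v j
    have := congrFun (congrFun hA j) v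
    simpa [Matrix.conjTranspose_apply] using this
  simp only [co, Finset.mul_sum]
  rw [Finset.sum_comm]
  refine Finset.sum_congr rfl fun j _ => ?_
  rw [← mul_assoc, ← h2 j, Finset.sum_mul]
  refine Finset.sum_congr rfl fun v _ => ?_
  rw [hs v j]; ring

theorem eq_of_co {A : Matrix V V ℝ} (hA : A.IsHermitian) (f g : V → ℝ)
    (h : ∀ i, co hA i f = co hA i g) : f = g := by
  have h1 := co_parseval hA (fun v => f v - g v) (fun v => f v - g v)
  have h2 : ∀ i, co hA i (fun v => f v - g v) = 0 := by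
    intro i
    have : co hA i (fun v => f v - g v) = co hA i f - co hA i g := by
      simp only [co, ← Finset.sum_sub_distrib]
      refine Finset.sum_congr rfl fun v _ => ?_
      ring
    rw [this, h i, sub_self]
  simp only [h2, mul_zero, Finset.sum_const_zero] at h1
  funext v
  have h3 := (Finset.sum_eq_zero_iff_of_nonneg (fun v _ => mul_self_nonneg (f v - g v))).1
    h1.symm v (Finset.mem_univ v)
  have := mul_self_eq_zero.1 h3
  linarith

theorem basis_norm {A : Matrix V V ℝ} (hA : A.IsHermitian) (i j : V) :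
    ∑ v, hA.eigenvectorBasis i v * hA.eigenvectorBasis j v = if i = j then 1 else 0 := by
  have := (orthonormal_iff_ite.1 hA.eigenvectorBasis.orthonormal) i j
  simp only [EuclideanSpace.inner_eq_star_dotProduct, dotProduct, star_trivial, Pi.star_apply] at this
  rw [← this]
  refine Finset.sum_congr rfl fun v _ => ?_
  ring

theorem eig_eq {A : Matrix V V ℝ} (hA : A.IsHermitian) (i v : V) :
    ∑ j, A v j * hA.eigenvectorBasis i j = hA.eigenvalues i * hA.eigenvectorBasis i v := by
  have := congrFun (hA.mulVec_eigenvectorBasis i) v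
  simpa [Matrix.mulVec, dotProduct] using this

/-- Perron: the absolute value of a top eigenvector is a top eigenvector. -/
theorem perron {A : Matrix V V ℝ} (hA : A.IsHermitian) (h0 : ∀ i j, 0 ≤ A i j) (t : V)
    (ht : ∀ i, hA.eigenvalues i ≤ hA.eigenvalues t) :
    (∀ v, ∑ j, A v j * |hA.eigenvectorBasis t j| = hA.eigenvalues t * |hA.eigenvectorBasis t v|) ∧
    (∀ i, hA.eigenvalues i ≠ hA.eigenvalues t →
      co hA i (fun v => |hA.eigenvectorBasis t v|) = 0) := by
  set X : V → ℝ := fun v => |hA.eigenvectorBasis t v| with hX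
  have hXX : ∑ v, X v * X v = 1 := by
    have := basis_norm hA t t
    simp only [if_true] at this
    rw [← this]
    refine Finset.sum_congr rfl fun v _ => ?_
    simp only [hX]
    exact abs_mul_abs_self _
  have hq : ∑ i, hA.eigenvalues i * (co hA i X) ^ 2 = ∑ v, X v * ∑ j, A v j * X j := by
    rw [← co_parseval hA X (fun v => ∑ j, A v j * X j)]
    refine Finset.sum_congr rfl fun i _ => ?_
    rw [co_mulVec]; ring
  have hlow : hA.eigenvalues t ≤ ∑ v, X v * ∑ j, A v j * X j := by
    have h1 : hA.eigenvalues t = ∑ v, hA.eigenvectorBasis t v *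
        ∑ j, A v j * hA.eigenvectorBasis t j := by
      simp_rw [eig_eq hA t]
      have := basis_norm hA t t
      simp only [if_true] at this
      calc hA.eigenvalues t = hA.eigenvalues t *
            ∑ v, hA.eigenvectorBasis t v * hA.eigenvectorBasis t v := by rw [this, mul_one]
        _ = _ := by
            rw [Finset.mul_sum]
            refine Finset.sum_congr rfl fun v _ => ?_
            ring
    rw [h1]
    refine Finset.sum_le_sum fun v _ => ?_
    rw [Finset.mul_sum, Finset.mul_sum]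
    refine Finset.sum_le_sum fun j _ => ?_
    have h2 : hA.eigenvectorBasis t v * (A v j * hA.eigenvectorBasis t j)
        ≤ |hA.eigenvectorBasis t v * (A v j * hA.eigenvectorBasis t j)| := le_abs_self _
    refine h2.trans (le_of_eq ?_)
    rw [abs_mul, abs_mul, abs_of_nonneg (h0 v j)]
  have hsum : ∑ i, (hA.eigenvalues t - hA.eigenvalues i) * (co hA i X) ^ 2 ≤ 0 := by
    have h1 : ∑ i, (co hA i X) ^ 2 = 1 := by
      have := co_parseval hA X X
      rw [hXX] at this
      rw [← this]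
      refine Finset.sum_congr rfl fun v _ => ?_
      ring
    simp_rw [sub_mul, Finset.sum_sub_distrib, ← Finset.mul_sum, h1, hq]
    linarith
  have hz : ∀ i, (hA.eigenvalues t - hA.eigenvalues i) * (co hA i X) ^ 2 = 0 := by
    have hnn : ∀ i ∈ (Finset.univ : Finset V),
        0 ≤ (hA.eigenvalues t - hA.eigenvalues i) * (co hA i X) ^ 2 := by
      intro i _
      exact mul_nonneg (sub_nonneg.2 (ht i)) (sq_nonneg _)
    have := (Finset.sum_eq_zero_iff_of_nonneg hnn).1 (le_antisymm hsum (Finset.sum_nonneg hnn))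
    intro i
    exact this i (Finset.mem_univ i)
  have hz2 : ∀ i, hA.eigenvalues i ≠ hA.eigenvalues t → co hA i X = 0 := by
    intro i hi
    rcases mul_eq_zero.1 (hz i) with h | h
    · exact absurd (by linarith : hA.eigenvalues i = hA.eigenvalues t) hi
    · exact pow_eq_zero_iff (by norm_num) |>.1 h
  refine ⟨?_, hz2⟩
  have : (fun v => ∑ j, A v j * X j) = fun v => hA.eigenvalues t * X v := by
    refine eq_of_co hA _ _ fun i => ?_
    rw [co_mulVec]
    have h3 : co hA i (fun v => hA.eigenvalues t * X v) = hA.eigenvalues t * co hA i X := by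
      simp only [co, Finset.mul_sum]
      refine Finset.sum_congr rfl fun v _ => ?_
      ring
    rw [h3]
    by_cases h : hA.eigenvalues i = hA.eigenvalues t
    · rw [h]
    · rw [hz2 i h]; ring
  intro v
  exact congrFun this v

/-- second eigenvector orthogonal to the Perron vector -/
theorem second {A : Matrix V V ℝ} (hA : A.IsHermitian) (h0 : ∀ i j, 0 ≤ A i j) (t k : V)
    (ht : ∀ i, hA.eigenvalues i ≤ hA.eigenvalues t) (hk : k ≠ t) :
    ∃ y : V → ℝ, (∑ v, y v ^ 2 = 1) ∧ (∑ v, |hA.eigenvectorBasis t v| * y v = 0) ∧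
      ∀ v, ∑ j, A v j * y j = hA.eigenvalues k * y v := by
  obtain ⟨-, hz⟩ := perron hA h0 t ht
  set X : V → ℝ := fun v => |hA.eigenvectorBasis t v| with hX
  have hkk : ∑ v, hA.eigenvectorBasis k v ^ 2 = 1 := by
    have := basis_norm hA k k
    simp only [if_true] at this
    rw [← this]
    exact Finset.sum_congr rfl fun v _ => by ring
  have htt : ∑ v, hA.eigenvectorBasis t v ^ 2 = 1 := by
    have := basis_norm hA t t
    simp only [if_true] at this
    rw [← this]
    exact Finset.sum_congr rfl fun v _ => by ring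
  have hkt : ∑ v, hA.eigenvectorBasis t v * hA.eigenvectorBasis k v = 0 := by
    have := basis_norm hA t k
    simpa [hk.symm] using this
  have hco : ∀ i, co hA i X = ∑ v, X v * hA.eigenvectorBasis i v := by
    intro i
    simp only [co]
    exact Finset.sum_congr rfl fun v _ => by ring
  by_cases hkz : co hA k X = 0
  · refine ⟨fun v => hA.eigenvectorBasis k v, hkk, ?_, fun v => eig_eq hA k v⟩
    rw [← hco k]; exact hkz
  · have hlam : hA.eigenvalues k = hA.eigenvalues t := by
      by_contra h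
      exact hkz (hz k h)
    set α := co hA t X with hα
    set β := co hA k X with hβ
    have hD : 0 < α ^ 2 + β ^ 2 := by positivity
    set c := Real.sqrt (α ^ 2 + β ^ 2) with hc
    have hc2 : c ^ 2 = α ^ 2 + β ^ 2 := Real.sq_sqrt hD.le
    have hcpos : 0 < c := Real.sqrt_pos.2 hD
    refine ⟨fun v => (β * hA.eigenvectorBasis t v - α * hA.eigenvectorBasis k v) / c, ?_, ?_, ?_⟩
    · have h1 : ∀ v, ((β * hA.eigenvectorBasis t v - α * hA.eigenvectorBasis k v) / c) ^ 2
          = (β ^ 2 / c ^ 2) * (hA.eigenvectorBasis t v ^ 2) + (α ^ 2 / c ^ 2) *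
            (hA.eigenvectorBasis k v ^ 2) - (2 * α * β / c ^ 2) *
            (hA.eigenvectorBasis t v * hA.eigenvectorBasis k v) := by
        intro v; field_simp; ring
      simp_rw [h1, Finset.sum_sub_distrib, Finset.sum_add_distrib, ← Finset.mul_sum, hkk, htt, hkt]
      rw [hc2]; field_simp; ring
    · have h1 : ∀ v, |hA.eigenvectorBasis t v| *
          ((β * hA.eigenvectorBasis t v - α * hA.eigenvectorBasis k v) / c)
          = (β / c) * (X v * hA.eigenvectorBasis t v) - (α / c) *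
            (X v * hA.eigenvectorBasis k v) := by
        intro v; simp only [hX]; field_simp
      simp_rw [h1, Finset.sum_sub_distrib, ← Finset.mul_sum, ← hco]
      rw [← hα, ← hβ]; ring
    · intro v
      have h1 : ∀ j, A v j * ((β * hA.eigenvectorBasis t j - α * hA.eigenvectorBasis k j) / c)
          = (β / c) * (A v j * hA.eigenvectorBasis t j) - (α / c) *
            (A v j * hA.eigenvectorBasis k j) := by
        intro j; field_simp
      simp_rw [h1, Finset.sum_sub_distrib, ← Finset.mul_sum, eig_eq]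
      rw [hlam]; field_simp

/-- weighted Bollobás–Nikiforov for the top eigenvalue and any other nonnegative one -/
theorem weighted_top (G : SimpleGraph V) [DecidableRel G.Adj] (r : ℕ) (hr : 1 ≤ r)
    (hG : G.CliqueFree (r+1)) {A : Matrix V V ℝ} (hA : A.IsHermitian) (h0 : ∀ i j, 0 ≤ A i j)
    (hsupp : ∀ i j, ¬ G.Adj i j → A i j = 0) (t k : V)
    (ht : ∀ i, hA.eigenvalues i ≤ hA.eigenvalues t) (hk : k ≠ t)
    (hpos : 0 < hA.eigenvalues t) (hk0 : 0 ≤ hA.eigenvalues k) :
    hA.eigenvalues t ^ 2 + hA.eigenvalues k ^ 2 ≤ (1 - 1 / (r : ℝ)) * ∑ i, ∑ j, A i j ^ 2 := by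
  obtain ⟨y, hy1, hy2, hy3⟩ := second hA h0 t k ht hk
  obtain ⟨hp, -⟩ := perron hA h0 t ht
  set a := hA.eigenvalues t with ha
  set b := hA.eigenvalues k with hb
  have hsa : Real.sqrt a ^ 2 = a := Real.sq_sqrt hpos.le
  have hsb : Real.sqrt b ^ 2 = b := Real.sq_sqrt hk0
  refine core G r hr hG A h0 hsupp (fun v => Real.sqrt a * |hA.eigenvectorBasis t v|)
    (fun v => Real.sqrt b * y v) (fun v => by positivity) a b hpos ?_ ?_ ?_ ?_ ?_
  · simp_rw [mul_pow, hsa, sq_abs, ← Finset.mul_sum]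
    have := basis_norm hA t t
    simp only [if_true] at this
    have h2 : ∑ v, hA.eigenvectorBasis t v ^ 2 = 1 := by
      rw [← this]; exact Finset.sum_congr rfl fun v _ => by ring
    rw [h2, mul_one]
  · simp_rw [mul_pow, hsb, ← Finset.mul_sum, hy1, mul_one]
  · have : ∀ v, Real.sqrt a * |hA.eigenvectorBasis t v| * (Real.sqrt b * y v)
        = (Real.sqrt a * Real.sqrt b) * (|hA.eigenvectorBasis t v| * y v) := by
      intro v; ring
    simp_rw [this, ← Finset.mul_sum, hy2, mul_zero]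
  · intro v
    have : ∀ j, A v j * (Real.sqrt a * |hA.eigenvectorBasis t j|)
        = Real.sqrt a * (A v j * |hA.eigenvectorBasis t j|) := by intro j; ring
    simp_rw [this, ← Finset.mul_sum, hp v]; ring
  · intro v
    have : ∀ j, A v j * (Real.sqrt b * y j) = Real.sqrt b * (A v j * y j) := by intro j; ring
    simp_rw [this, ← Finset.mul_sum, hy3 v]; ring

/-- the one-eigenvalue bound -/
theorem weighted_one (G : SimpleGraph V) [DecidableRel G.Adj] (r : ℕ) (hr : 1 ≤ r)
    (hG : G.CliqueFree (r+1)) {A : Matrix V V ℝ} (hA : A.IsHermitian) (h0 : ∀ i j, 0 ≤ A i j)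
    (hsupp : ∀ i j, ¬ G.Adj i j → A i j = 0) (t : V)
    (ht : ∀ i, hA.eigenvalues i ≤ hA.eigenvalues t)
    (hpos : 0 < hA.eigenvalues t) :
    hA.eigenvalues t ^ 2 ≤ (1 - 1 / (r : ℝ)) * ∑ i, ∑ j, A i j ^ 2 := by
  obtain ⟨hp, -⟩ := perron hA h0 t ht
  set a := hA.eigenvalues t with ha
  have hsa : Real.sqrt a ^ 2 = a := Real.sq_sqrt hpos.le
  have := core G r hr hG A h0 hsupp (fun v => Real.sqrt a * |hA.eigenvectorBasis t v|)
    (fun _ => 0) (fun v => by positivity) a 0 hpos ?_ ?_ ?_ ?_ ?_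
  · simpa using this
  · simp_rw [mul_pow, hsa, sq_abs, ← Finset.mul_sum]
    have := basis_norm hA t t
    simp only [if_true] at this
    have h2 : ∑ v, hA.eigenvectorBasis t v ^ 2 = 1 := by
      rw [← this]; exact Finset.sum_congr rfl fun v _ => by ring
    rw [h2, mul_one]
  · simp
  · simp
  · intro v
    have : ∀ j, A v j * (Real.sqrt a * |hA.eigenvectorBasis t j|)
        = Real.sqrt a * (A v j * |hA.eigenvectorBasis t j|) := by intro j; ring
    simp_rw [this, ← Finset.mul_sum, hp v]; ring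
  · intro v; simp

/-- Any two distinct positive eigenvalues (with multiplicity). -/
theorem weighted_two (G : SimpleGraph V) [DecidableRel G.Adj] (r : ℕ) (hr : 1 ≤ r)
    (hG : G.CliqueFree (r+1)) {A : Matrix V V ℝ} (hA : A.IsHermitian) (h0 : ∀ i j, 0 ≤ A i j)
    (hsupp : ∀ i j, ¬ G.Adj i j → A i j = 0) (i j : V) (hij : i ≠ j)
    (hi : 0 < hA.eigenvalues i) (hj : 0 < hA.eigenvalues j) :
    hA.eigenvalues i ^ 2 + hA.eigenvalues j ^ 2 ≤ (1 - 1 / (r : ℝ)) * ∑ i, ∑ j, A i j ^ 2 := by
  have : Nonempty V := ⟨i⟩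
  obtain ⟨t, ht⟩ := Finite.exists_max hA.eigenvalues
  have htpos : 0 < hA.eigenvalues t := lt_of_lt_of_le hi (ht i)
  by_cases h : i = t
  · subst h
    exact weighted_top G r hr hG hA h0 hsupp i j ht hij.symm hi hj.le
  · have h1 := weighted_top G r hr hG hA h0 hsupp t i ht h htpos hi.le
    have h2 : hA.eigenvalues j ^ 2 ≤ hA.eigenvalues t ^ 2 :=
      pow_le_pow_left₀ hj.le (ht j) 2
    linarith

theorem weighted_single (G : SimpleGraph V) [DecidableRel G.Adj] (r : ℕ) (hr : 1 ≤ r)
    (hG : G.CliqueFree (r+1)) {A : Matrix V V ℝ} (hA : A.IsHermitian) (h0 : ∀ i j, 0 ≤ A i j)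
    (hsupp : ∀ i j, ¬ G.Adj i j → A i j = 0) (i : V)
    (hi : 0 < hA.eigenvalues i) :
    hA.eigenvalues i ^ 2 ≤ (1 - 1 / (r : ℝ)) * ∑ i, ∑ j, A i j ^ 2 := by
  have : Nonempty V := ⟨i⟩
  obtain ⟨t, ht⟩ := Finite.exists_max hA.eigenvalues
  have htpos : 0 < hA.eigenvalues t := lt_of_lt_of_le hi (ht i)
  have h1 := weighted_one G r hr hG hA h0 hsupp t ht htpos
  have h2 : hA.eigenvalues i ^ 2 ≤ hA.eigenvalues t ^ 2 := pow_le_pow_left₀ hi.le (ht i) 2
  linarith

theorem weighted_set (G : SimpleGraph V) [DecidableRel G.Adj] (r : ℕ) (hr : 1 ≤ r)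
    (hG : G.CliqueFree (r+1)) {A : Matrix V V ℝ} (hA : A.IsHermitian) (h0 : ∀ i j, 0 ≤ A i j)
    (hsupp : ∀ i j, ¬ G.Adj i j → A i j = 0) (S : Finset V) (hS : S.card ≤ 2)
    (hi : ∀ i ∈ S, 0 < hA.eigenvalues i) :
    ∑ i ∈ S, hA.eigenvalues i ^ 2 ≤ (1 - 1 / (r : ℝ)) * ∑ i, ∑ j, A i j ^ 2 := by
  have hc : 0 ≤ (1 - 1 / (r : ℝ)) * ∑ i, ∑ j, A i j ^ 2 := by
    refine mul_nonneg ?_ (Finset.sum_nonneg fun i _ => Finset.sum_nonneg fun j _ => sq_nonneg _)
    have : (1:ℝ) ≤ r := by exact_mod_cast hr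
    rw [sub_nonneg, div_le_one (by linarith)]
    exact this
  rcases Nat.lt_or_ge S.card 1 with h | h
  · have : S = ∅ := Finset.card_eq_zero.1 (by omega)
    subst this; simpa using hc
  rcases Nat.lt_or_ge S.card 2 with h2 | h2
  · obtain ⟨i, rfl⟩ := Finset.card_eq_one.1 (by omega : S.card = 1)
    simpa using weighted_single G r hr hG hA h0 hsupp i (hi i (by simp))
  · obtain ⟨i, j, hij, rfl⟩ := Finset.card_eq_two.1 (by omega : S.card = 2)
    rw [Finset.sum_pair hij]
    exact weighted_two G r hr hG hA h0 hsupp i j hij (hi i (by simp)) (hi j (by simp))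

theorem sum_sq_adj (G : SimpleGraph V) [DecidableRel G.Adj] :
    ∑ i, ∑ j, (G.adjMatrix ℝ) i j ^ 2 = 2 * (Nat.card G.edgeSet : ℝ) := by
  have h1 : ∀ i, ∑ j, (G.adjMatrix ℝ) i j ^ 2 = (G.degree i : ℝ) := by
    intro i
    simp [SimpleGraph.adjMatrix_apply, ← SimpleGraph.card_neighborFinset_eq_degree,
      SimpleGraph.neighborFinset_eq_filter]
  simp_rw [h1]
  have := G.sum_degrees_eq_twice_card_edges
  have h3 : (∑ i, (G.degree i : ℝ)) = ((∑ i, G.degree i : ℕ) : ℝ) := by push_cast; rfl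
  rw [h3, this, Nat.card_eq_fintype_card, ← SimpleGraph.edgeFinset_card]
  push_cast; ring

end spectral
end Pool.Agent.H502.BNTop
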